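import Mathlib

/-!
# MP_ee50b4_pr, Q1: the Peres conjecture fails for convolution walks on cycles

We construct symmetric ergodic convolution walks on cycles `ℤ/n_k`, `n_k → ∞`, with
`T_rel / T_mix(1/2) → 0` and no total variation cutoff.
-/

set_option autoImplicit false

namespace Pool.Agent.Results.MP_ee50b4_pr.ProductConditionNoCutoff

open Finset Filter Topology

/-- `μ` is a probability measure on `ℤ/n`. -/
def IsProb {n : ℕ} [NeZero n] (μ : ZMod n → ℝ) : Prop :=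
  (∀ x, 0 ≤ μ x) ∧ ∑ x, μ x = 1

/-- The support of `μ` is not contained in a coset of a proper subgroup. -/
def IsErgodic {n : ℕ} (μ : ZMod n → ℝ) : Prop :=
  ∀ H : AddSubgroup (ZMod n), H ≠ ⊤ → ∀ a : ZMod n, ∃ x, μ x ≠ 0 ∧ x - a ∉ H

/-- Convolution powers: the law of the walk started at `0` after `t` steps. -/
noncomputable def convPow {n : ℕ} [NeZero n] (μ : ZMod n → ℝ) : ℕ → ZMod n → ℝ
  | 0 => fun x => if x = 0 then 1 else 0
  | (t + 1) => fun x => ∑ y, convPow μ t y * μ (x - y)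

/-- Total variation distance to the uniform distribution after `t` steps. -/
noncomputable def tv {n : ℕ} [NeZero n] (μ : ZMod n → ℝ) (t : ℕ) : ℝ :=
  (1 / 2) * ∑ x, |convPow μ t x - 1 / n|

/-- The total variation mixing time `T_mix(ε)`. -/
noncomputable def tmix {n : ℕ} [NeZero n] (μ : ZMod n → ℝ) (ε : ℝ) : ℕ :=
  sInf {t : ℕ | tv μ t ≤ ε}

/-- The eigenvalue `μ̂(j) = ∑ₓ μ(x) exp(2πijx/n)`. -/
noncomputable def eig {n : ℕ} [NeZero n] (μ : ZMod n → ℝ) (j : ZMod n) : ℂ :=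
  ∑ x, (μ x : ℂ) * ZMod.stdAddChar (j * x)

/-- The relaxation time `1 / (1 - max_{j ≠ 0} |μ̂(j)|)`. -/
noncomputable def trel {n : ℕ} [NeZero n] (μ : ZMod n → ℝ) : ℝ :=
  1 / (1 - ⨆ j : {j : ZMod n // j ≠ 0}, ‖eig μ j‖)

section construction

variable {k : ℕ} (a : Fin k → ℕ) [∀ i, NeZero (a i)]

/-- product law after `t` steps on `∏ ℤ/a_i`. -/
noncomputable def g (t : ℕ) (z : ∀ i, ZMod (a i)) : ℝ :=
  ∏ i, ((1 / 2) ^ t * (if z i = 0 then 1 else 0) + (1 - (1 / 2) ^ t) / (a i : ℝ))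

omit a [∀ i, NeZero (a i)] in
theorem one_factor (A : ℕ) [NeZero A] (α β : ℝ) (w : ZMod A) :
    ∑ y : ZMod A, (α * (if y = 0 then 1 else 0) + (1 - α) / (A : ℝ)) *
      (β * (if w - y = 0 then 1 else 0) + (1 - β) / (A : ℝ)) =
      (α * β) * (if w = 0 then 1 else 0) + (1 - α * β) / (A : ℝ) := by
  have hA : (A : ℝ) ≠ 0 := by exact_mod_cast NeZero.ne A
  have h0 : ∀ y : ZMod A, (if w - y = 0 then (1 : ℝ) else 0) = if y = w then 1 else 0 := by
    intro y
    have : (w - y = 0) ↔ (y = w) := by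
      rw [sub_eq_zero, eq_comm]
    simp only [this]
  have h1 : ∀ y : ZMod A, (α * (if y = 0 then 1 else 0) + (1 - α) / (A : ℝ)) *
      (β * (if w - y = 0 then 1 else 0) + (1 - β) / (A : ℝ)) =
      (if y = 0 then α * β * (if y = w then 1 else 0) else 0) +
      (if y = 0 then α * ((1 - β) / (A : ℝ)) else 0) +
      (if y = w then (1 - α) / (A : ℝ) * β else 0) + (1 - α) / (A : ℝ) * ((1 - β) / (A : ℝ)) := by
    intro y
    rw [h0]
    split_ifs <;> ring
  simp_rw [h1, Finset.sum_add_distrib]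
  simp only [Finset.sum_ite_eq', Finset.mem_univ, if_true, Finset.sum_const,
    Finset.card_univ, ZMod.card, nsmul_eq_mul]
  have h2 : (if (0 : ZMod A) = w then (1 : ℝ) else 0) = if w = 0 then 1 else 0 := by
    simp only [eq_comm]
  rw [h2]
  field_simp
  ring

omit a [∀ i, NeZero (a i)] in
theorem one_sum (A : ℕ) [NeZero A] (α : ℝ) :
    ∑ y : ZMod A, (α * (if y = 0 then 1 else 0) + (1 - α) / (A : ℝ)) = 1 := by
  have hA : (A : ℝ) ≠ 0 := by exact_mod_cast NeZero.ne A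
  rw [Finset.sum_add_distrib]
  simp only [mul_ite, mul_one, mul_zero, Finset.sum_ite_eq', Finset.mem_univ, if_true,
    Finset.sum_const, Finset.card_univ, ZMod.card, nsmul_eq_mul]
  field_simp
  ring

theorem sum_prod (F : ∀ i, ZMod (a i) → ℝ) :
    ∑ z : ∀ i, ZMod (a i), ∏ i, F i (z i) = ∏ i, ∑ y, F i y := by
  rw [Finset.prod_univ_sum, Fintype.piFinset_univ]

theorem g_sum (t : ℕ) : ∑ z, g a t z = 1 := by
  unfold g
  rw [sum_prod a fun i y => ((1 / 2) ^ t * (if y = 0 then 1 else 0) + (1 - (1 / 2) ^ t) / (a i : ℝ))]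
  exact Finset.prod_eq_one fun i _ => one_sum (a i) _

omit [∀ i, NeZero (a i)] in
theorem g_nonneg (t : ℕ) (z : ∀ i, ZMod (a i)) : 0 ≤ g a t z := by
  unfold g
  apply Finset.prod_nonneg
  intro i _
  have h1 : ((1 : ℝ) / 2) ^ t ≤ 1 := pow_le_one₀ (by norm_num) (by norm_num)
  have h2 : 0 ≤ (1 - ((1 : ℝ) / 2) ^ t) / (a i : ℝ) := div_nonneg (by linarith) (Nat.cast_nonneg _)
  have h3 : (0 : ℝ) ≤ (1 / 2) ^ t * (if z i = 0 then 1 else 0) := by
    split_ifs <;> positivity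
  linarith

theorem g_conv (t s : ℕ) (w : ∀ i, ZMod (a i)) : ∑ z, g a t z * g a s (w - z) = g a (t + s) w := by
  unfold g
  simp_rw [← Finset.prod_mul_distrib, Pi.sub_apply]
  rw [sum_prod a fun i y => ((1 / 2) ^ t * (if y = 0 then 1 else 0) + (1 - (1 / 2) ^ t) / (a i : ℝ)) *
    ((1 / 2) ^ s * (if w i - y = 0 then 1 else 0) + (1 - (1 / 2) ^ s) / (a i : ℝ))]
  refine Finset.prod_congr rfl fun i _ => ?_
  rw [one_factor, pow_add]

/-- The law on the product after `t` steps, with an extra jump to uniform with rate `ε`. -/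
noncomputable def G (ε : ℝ) (t : ℕ) (z : ∀ i, ZMod (a i)) : ℝ :=
  (1 - ε) ^ t * g a t z + (1 - (1 - ε) ^ t) / ((∏ i, a i : ℕ) : ℝ)

theorem card_pi : (Fintype.card (∀ i, ZMod (a i)) : ℝ) = ((∏ i, a i : ℕ) : ℝ) := by
  rw [Fintype.card_pi]
  simp [ZMod.card]

theorem prod_ne : ((∏ i, a i : ℕ) : ℝ) ≠ 0 := by
  have : (∏ i, a i) ≠ 0 := Finset.prod_ne_zero_iff.2 fun i _ => NeZero.ne (a i)
  exact_mod_cast this

theorem G_conv (ε : ℝ) (t : ℕ) (w : ∀ i, ZMod (a i)) :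
    ∑ z, G a ε t z * G a ε 1 (w - z) = G a ε (t + 1) w := by
  have hN := prod_ne a
  unfold G
  set N := ((∏ i, a i : ℕ) : ℝ) with hNdef
  have h1 : ∀ z, ((1 - ε) ^ t * g a t z + (1 - (1 - ε) ^ t) / N) *
      ((1 - ε) ^ 1 * g a 1 (w - z) + (1 - (1 - ε) ^ 1) / N) =
      (1 - ε) ^ (t + 1) * (g a t z * g a 1 (w - z)) + ((1 - ε) ^ t * (ε / N)) * g a t z +
      ((1 - (1 - ε) ^ t) / N * (1 - ε)) * g a 1 (w - z) + (1 - (1 - ε) ^ t) / N * (ε / N) := by
    intro z
    ring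
  have h2 : ∑ z, g a 1 (w - z) = 1 := by
    rw [← g_sum a 1]
    exact (Equiv.subLeft w).sum_comp (g a 1)
  simp_rw [h1, Finset.sum_add_distrib, ← Finset.mul_sum]
  rw [g_conv, g_sum, h2, Finset.sum_const, Finset.card_univ, nsmul_eq_mul, card_pi, ← hNdef]
  field_simp
  ring

/-- Lower bound on the total variation distance of the product chain. -/
theorem g_tv_lower (t : ℕ) :
    (∏ i, (1 - 1 / (a i : ℝ))) * (1 - (1 - (1 / 2) ^ t) ^ k) ≤
      (1 / 2) * ∑ z, |g a t z - 1 / ((∏ i, a i : ℕ) : ℝ)| := by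
  classical
  have hN := prod_ne a
  set N := ((∏ i, a i : ℕ) : ℝ) with hNdef
  -- indicator of the set where no coordinate vanishes
  let B : (∀ i, ZMod (a i)) → ℝ := fun z => ∏ i, if z i = 0 then 0 else 1
  have hB0 : ∀ z, 0 ≤ B z := fun z => Finset.prod_nonneg fun i _ => by split_ifs <;> norm_num
  have hB1 : ∀ z, B z ≤ 1 := fun z => Finset.prod_le_one (fun i _ => by split_ifs <;> norm_num)
    (fun i _ => by split_ifs <;> norm_num)
  have hone : ∀ (A : ℕ) [NeZero A] (c : ℝ), ∑ y : ZMod A, (if y = 0 then 0 else c) = (A - 1) * c := by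
    intro A _ c
    have h1 : ∀ y : ZMod A, (if y = 0 then 0 else c) = c - (if y = 0 then c else 0) := by
      intro y
      split_ifs <;> ring
    simp_rw [h1, Finset.sum_sub_distrib]
    simp only [Finset.sum_ite_eq', Finset.mem_univ, if_true,
      Finset.sum_const, Finset.card_univ, ZMod.card, nsmul_eq_mul]
    ring
  have hsumB : ∑ z, B z * (1 / N) = ∏ i, (1 - 1 / (a i : ℝ)) := by
    have h1 : ∀ z, B z * (1 / N) = ∏ i, (if z i = 0 then 0 else (1 / (a i : ℝ))) := by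
      intro z
      have : (1 / N) = ∏ i, (1 / (a i : ℝ)) := by
        rw [hNdef, Finset.prod_div_distrib]
        simp
      rw [this, ← Finset.prod_mul_distrib]
      refine Finset.prod_congr rfl fun i _ => ?_
      split_ifs <;> ring
    simp_rw [h1]
    rw [sum_prod a fun i y => if y = 0 then 0 else (1 / (a i : ℝ))]
    refine Finset.prod_congr rfl fun i _ => ?_
    rw [hone]
    have : (a i : ℝ) ≠ 0 := by exact_mod_cast NeZero.ne (a i)
    field_simp
  have hsumBg : ∑ z, B z * g a t z = (∏ i, (1 - 1 / (a i : ℝ))) * (1 - (1 / 2) ^ t) ^ k := by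
    have h1 : ∀ z, B z * g a t z = ∏ i, (if z i = 0 then 0 else ((1 - (1 / 2) ^ t) / (a i : ℝ))) := by
      intro z
      unfold g
      rw [← Finset.prod_mul_distrib]
      refine Finset.prod_congr rfl fun i _ => ?_
      split_ifs <;> ring
    simp_rw [h1]
    rw [sum_prod a fun i y => if y = 0 then 0 else ((1 - (1 / 2) ^ t) / (a i : ℝ))]
    have h2 : ((1 : ℝ) - (1 / 2) ^ t) ^ k = ∏ _i : Fin k, (1 - (1 / 2) ^ t) := by simp
    rw [h2, ← Finset.prod_mul_distrib]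
    refine Finset.prod_congr rfl fun i _ => ?_
    rw [hone]
    have : (a i : ℝ) ≠ 0 := by exact_mod_cast NeZero.ne (a i)
    field_simp
  have hzero : ∑ z, (1 / N - g a t z) = 0 := by
    rw [Finset.sum_sub_distrib, g_sum, Finset.sum_const, Finset.card_univ, nsmul_eq_mul, card_pi,
      ← hNdef]
    field_simp
    ring
  have hle : ∀ z, (2 * B z - 1) * (1 / N - g a t z) ≤ |g a t z - 1 / N| := by
    intro z
    have h1 : |2 * B z - 1| ≤ 1 := by
      rw [abs_le]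
      constructor <;> linarith [hB0 z, hB1 z]
    calc (2 * B z - 1) * (1 / N - g a t z) ≤ |(2 * B z - 1) * (1 / N - g a t z)| := le_abs_self _
      _ = |2 * B z - 1| * |1 / N - g a t z| := abs_mul _ _
      _ ≤ 1 * |1 / N - g a t z| := by gcongr
      _ = |g a t z - 1 / N| := by rw [one_mul, abs_sub_comm]
  have hsum := Finset.sum_le_sum fun z (_ : z ∈ (Finset.univ : Finset (∀ i, ZMod (a i)))) => hle z
  have h3 : ∑ z, (2 * B z - 1) * (1 / N - g a t z) =
      2 * (∑ z, B z * (1 / N) - ∑ z, B z * g a t z) - ∑ z, (1 / N - g a t z) := by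
    rw [← Finset.sum_sub_distrib, Finset.mul_sum, ← Finset.sum_sub_distrib]
    refine Finset.sum_congr rfl fun z _ => ?_
    ring
  rw [h3, hzero, hsumB, hsumBg] at hsum
  linarith

theorem g_tv_upper (t : ℕ) :
    (1 / 2) * ∑ z, |g a t z - 1 / ((∏ i, a i : ℕ) : ℝ)| ≤ 1 := by
  have hN := prod_ne a
  have hN0 : (0 : ℝ) ≤ ((∏ i, a i : ℕ) : ℝ) := Nat.cast_nonneg _
  set N := ((∏ i, a i : ℕ) : ℝ) with hNdef
  have h1 : ∑ z, |g a t z - 1 / N| ≤ ∑ z, (g a t z + 1 / N) := by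
    refine Finset.sum_le_sum fun z _ => ?_
    have h2 := g_nonneg a t z
    have h3 : 0 ≤ 1 / N := by positivity
    rw [abs_le]
    constructor <;> linarith
  rw [Finset.sum_add_distrib, g_sum, Finset.sum_const, Finset.card_univ, nsmul_eq_mul, card_pi,
    ← hNdef] at h1
  have h4 : N * (1 / N) = 1 := by field_simp
  rw [h4] at h1
  linarith

variable [NeZero (∏ i, a i)] (hcop : Pairwise (Function.onFun Nat.Coprime a))

/-- The step law on the cycle. -/
noncomputable def mu (ε : ℝ) (x : ZMod (∏ i, a i)) : ℝ := G a ε 1 (ZMod.prodEquivPi a hcop x)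

theorem convPow_mu (ε : ℝ) (t : ℕ) (x : ZMod (∏ i, a i)) :
    convPow (mu a hcop ε) t x = G a ε t (ZMod.prodEquivPi a hcop x) := by
  induction t generalizing x with
  | zero =>
    simp only [convPow, G, g, pow_zero, sub_self, zero_div, add_zero, one_mul]
    rw [Finset.prod_ite_zero]
    simp only [Finset.prod_const_one, Finset.mem_univ, true_implies]
    by_cases hx : x = 0
    · subst hx
      simp
    · rw [if_neg hx, if_neg]
      intro h
      apply hx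
      have : ZMod.prodEquivPi a hcop x = 0 := funext h
      exact (map_eq_zero_iff _ (ZMod.prodEquivPi a hcop).injective).1 this
  | succ t ih =>
    simp only [convPow]
    simp_rw [ih, mu, map_sub]
    rw [← G_conv]
    exact (ZMod.prodEquivPi a hcop).toEquiv.sum_comp
      (fun z => G a ε t z * G a ε 1 (ZMod.prodEquivPi a hcop x - z))

theorem tv_mu (ε : ℝ) (hε : ε ≤ 1) (t : ℕ) :
    tv (mu a hcop ε) t = (1 - ε) ^ t * ((1 / 2) * ∑ z, |g a t z - 1 / ((∏ i, a i : ℕ) : ℝ)|) := by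
  unfold tv
  simp_rw [convPow_mu]
  have h0 : ∑ x, |G a ε t (ZMod.prodEquivPi a hcop x) - 1 / ((∏ i, a i : ℕ) : ℝ)| =
      ∑ z, |G a ε t z - 1 / ((∏ i, a i : ℕ) : ℝ)| :=
    (ZMod.prodEquivPi a hcop).toEquiv.sum_comp
      (fun z => |G a ε t z - 1 / ((∏ i, a i : ℕ) : ℝ)|)
  rw [h0]
  have h1 : ∀ z, |G a ε t z - 1 / ((∏ i, a i : ℕ) : ℝ)| =
      (1 - ε) ^ t * |g a t z - 1 / ((∏ i, a i : ℕ) : ℝ)| := by
    intro z
    have h2 : 0 ≤ (1 - ε) ^ t := pow_nonneg (by linarith) _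
    have h3 : G a ε t z - 1 / ((∏ i, a i : ℕ) : ℝ) =
        (1 - ε) ^ t * (g a t z - 1 / ((∏ i, a i : ℕ) : ℝ)) := by
      unfold G
      ring
    rw [h3, abs_mul, abs_of_nonneg h2]
  simp_rw [h1, ← Finset.mul_sum]
  ring

omit [∀ i, NeZero (a i)] [NeZero (∏ i, a i)] in
theorem mu_nonneg (ε : ℝ) (h1 : ε ≤ 1) (x : ZMod (∏ i, a i)) : 
    ε / ((∏ i, a i : ℕ) : ℝ) ≤ mu a hcop ε x := by
  unfold mu G
  have h2 := g_nonneg a 1 (ZMod.prodEquivPi a hcop x)
  have h3 : 0 ≤ (1 - ε) ^ 1 * g a 1 (ZMod.prodEquivPi a hcop x) := by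
    apply mul_nonneg _ h2
    simpa using h1
  have h4 : (1 - (1 - ε) ^ 1) = ε := by ring
  rw [h4]
  linarith

theorem mu_sum (ε : ℝ) : ∑ x, mu a hcop ε x = 1 := by
  unfold mu
  have h := (ZMod.prodEquivPi a hcop).toEquiv.sum_comp (fun z => G a ε 1 z)
  have h2 : ∑ x, G a ε 1 (ZMod.prodEquivPi a hcop x) = ∑ z, G a ε 1 z := h
  rw [h2]
  unfold G
  rw [Finset.sum_add_distrib, ← Finset.mul_sum, g_sum, Finset.sum_const, Finset.card_univ,
    nsmul_eq_mul, card_pi]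
  have := prod_ne a
  field_simp
  ring

omit [∀ i, NeZero (a i)] [NeZero (∏ i, a i)] in
theorem mu_symm (ε : ℝ) (x : ZMod (∏ i, a i)) : mu a hcop ε (-x) = mu a hcop ε x := by
  unfold mu G g
  simp [map_neg]

omit a [∀ i, NeZero (a i)] [NeZero (∏ i, a i)] in
theorem addChar_sum {A ι : Type*} [AddCommGroup A] (ψ : AddChar A ℂ) (s : Finset ι) (f : ι → A) :
    ψ (∑ i ∈ s, f i) = ∏ i ∈ s, ψ (f i) := by
  classical
  induction s using Finset.induction_on with
  | empty => simp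
  | insert i s hi ih => rw [Finset.sum_insert hi, Finset.prod_insert hi, AddChar.map_add_eq_mul, ih]

omit [NeZero (∏ i, a i)] in
theorem char_sum (ψ : AddChar (∀ i, ZMod (a i)) ℂ) (hψ : ψ ≠ 0) :
    ‖∑ z, (g a 1 z : ℂ) * ψ z‖ ≤ 1 / 2 := by
  classical
  let φ : ∀ i, AddChar (ZMod (a i)) ℂ := fun i =>
    ψ.compAddMonoidHom (AddMonoidHom.single (fun i => ZMod (a i)) i)
  have hφ : ∀ z, ψ z = ∏ i, φ i (z i) := by
    intro z
    have h1 : z = ∑ i, Pi.single i (z i) := (Finset.univ_sum_single z).symm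
    conv_lhs => rw [h1]
    rw [addChar_sum]
    rfl
  have h1 : ∀ z, (g a 1 z : ℂ) * ψ z =
      ∏ i, (((1 / 2 : ℂ) * (if z i = 0 then 1 else 0) + (1 / 2 : ℂ) / (a i : ℂ)) * φ i (z i)) := by
    intro z
    rw [Finset.prod_mul_distrib, ← hφ]
    congr 1
    unfold g
    push_cast
    refine Finset.prod_congr rfl fun i _ => ?_
    split_ifs <;> norm_num
  simp_rw [h1]
  rw [← Fintype.piFinset_univ, ← Finset.prod_univ_sum
    (fun i : Fin k => (Finset.univ : Finset (ZMod (a i))))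
    (fun i y => ((1 / 2 : ℂ) * (if y = 0 then 1 else 0) + (1 / 2 : ℂ) / (a i : ℂ)) * φ i y)]
  rw [norm_prod]
  have h2 : ∀ i, ∑ y, ((1 / 2 : ℂ) * (if y = 0 then 1 else 0) + (1 / 2 : ℂ) / (a i : ℂ)) * φ i y =
      1 / 2 + (1 / 2) / (a i : ℂ) * ∑ y, φ i y := by
    intro i
    simp_rw [add_mul, Finset.sum_add_distrib, ← Finset.mul_sum]
    congr 1
    simp
  have h3 : ∀ i, φ i ≠ 0 → ‖∑ y, ((1 / 2 : ℂ) * (if y = 0 then 1 else 0) +
      (1 / 2 : ℂ) / (a i : ℂ)) * φ i y‖ = 1 / 2 := by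
    intro i hi
    rw [h2, AddChar.sum_eq_zero_iff_ne_zero.2 hi]
    simp
  have h4 : ∀ i, ‖∑ y, ((1 / 2 : ℂ) * (if y = 0 then 1 else 0) +
      (1 / 2 : ℂ) / (a i : ℂ)) * φ i y‖ ≤ 1 := by
    intro i
    by_cases hi : φ i = 0
    · rw [h2, hi]
      have hne : (a i : ℂ) ≠ 0 := by exact_mod_cast NeZero.ne (a i)
      have hs : ∑ y : ZMod (a i), (0 : AddChar (ZMod (a i)) ℂ) y = (a i : ℂ) := by
        simp [ZMod.card]
      rw [hs]
      have hone : (1 / 2 + (1 / 2) / (a i : ℂ) * (a i : ℂ)) = 1 := by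
        field_simp
        norm_num
      rw [hone]
      simp
    · rw [h3 i hi]
      norm_num
  obtain ⟨i, hi⟩ : ∃ i, φ i ≠ 0 := by
    by_contra hcon
    push Not at hcon
    apply hψ
    ext z
    rw [hφ]
    simp [hcon]
  rw [← Finset.mul_prod_erase _ _ (Finset.mem_univ i), h3 i hi]
  have h5 : ∏ x ∈ Finset.univ.erase i, ‖∑ y, ((1 / 2 : ℂ) * (if y = 0 then 1 else 0) +
      (1 / 2 : ℂ) / (a x : ℂ)) * φ x y‖ ≤ 1 :=
    Finset.prod_le_one (fun _ _ => norm_nonneg _) fun x _ => h4 x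
  linarith

theorem eig_bound (ε : ℝ) (h0 : 0 ≤ ε) (h1 : ε ≤ 1) (j : ZMod (∏ i, a i)) (hj : j ≠ 0) :
    ‖eig (mu a hcop ε) j‖ ≤ 1 / 2 := by
  let χ : AddChar (ZMod (∏ i, a i)) ℂ := AddChar.mulShift ZMod.stdAddChar j
  have hχ : χ ≠ 0 := ZMod.isPrimitive_stdAddChar (∏ i, a i) hj
  let e := ZMod.prodEquivPi a hcop
  let ψ : AddChar (∀ i, ZMod (a i)) ℂ := χ.compAddMonoidHom (e.symm : (∀ i, ZMod (a i)) →+ _)
  have hψe : ∀ x, ψ (e x) = χ x := by
    intro x
    simp [ψ]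
  have hψ : ψ ≠ 0 := by
    intro h
    apply hχ
    ext x
    rw [← hψe, h]
    simp
  have h2 : eig (mu a hcop ε) j = ∑ z, (G a ε 1 z : ℂ) * ψ z := by
    unfold eig
    have h3 := (ZMod.prodEquivPi a hcop).toEquiv.sum_comp (fun z => (G a ε 1 z : ℂ) * ψ z)
    rw [← h3]
    refine Finset.sum_congr rfl fun x _ => ?_
    have h4 : ψ ((ZMod.prodEquivPi a hcop).toEquiv x) = ZMod.stdAddChar (j * x) := hψe x
    rw [h4]
    rfl
  have h5 : ∑ z, (G a ε 1 z : ℂ) * ψ z = ((1 - ε : ℝ) : ℂ) * ∑ z, (g a 1 z : ℂ) * ψ z +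
      ((ε / ((∏ i, a i : ℕ) : ℝ) : ℝ) : ℂ) * ∑ z, ψ z := by
    rw [Finset.mul_sum, Finset.mul_sum, ← Finset.sum_add_distrib]
    refine Finset.sum_congr rfl fun z _ => ?_
    unfold G
    push_cast
    ring
  rw [h2, h5, AddChar.sum_eq_zero_iff_ne_zero.2 hψ, mul_zero, add_zero, norm_mul,
    Complex.norm_real, Real.norm_eq_abs, abs_of_nonneg (by linarith)]
  have := char_sum a ψ hψ
  nlinarith [norm_nonneg (∑ z, (g a 1 z : ℂ) * ψ z)]

end construction

theorem tmix_gt {n : ℕ} [NeZero n] (μ : ZMod n → ℝ) (δ : ℝ) (T : ℕ) (hne : ∃ t, tv μ t ≤ δ)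
    (h : ∀ t ≤ T, δ < tv μ t) : T < tmix μ δ := by
  by_contra hcon
  push Not at hcon
  have h1 : tv μ (tmix μ δ) ≤ δ := Nat.sInf_mem (s := {t : ℕ | tv μ t ≤ δ}) hne
  exact absurd h1 (not_le.2 (h _ hcon))

theorem tmix_le {n : ℕ} [NeZero n] (μ : ZMod n → ℝ) (δ : ℝ) (T : ℕ) (h : tv μ T ≤ δ) :
    tmix μ δ ≤ T :=
  Nat.sInf_le (s := {t : ℕ | tv μ t ≤ δ}) h

theorem exists_walk (M : ℕ) (hM : 1 ≤ M) : ∃ (n : ℕ) (_ : NeZero n) (μ : ZMod n → ℝ),
    M ≤ n ∧ 2 ≤ n ∧ IsProb μ ∧ IsErgodic μ ∧ (∀ x, μ (-x) = μ x) ∧ 0 ≤ trel μ ∧ trel μ ≤ 2 ∧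
    M < tmix μ (1 / 2) ∧ 2 * M < tmix μ (1 / 4) ∧ 0 < tmix μ (3 / 4) ∧ tmix μ (3 / 4) ≤ M := by
  have hMR : (1 : ℝ) ≤ M := by exact_mod_cast hM
  set k : ℕ := 4 * 4 ^ M with hk
  have hkpos : 0 < k := by positivity
  have hkR : (0 : ℝ) < k := by exact_mod_cast hkpos
  let a : Fin k → ℕ := fun i => Nat.nth Nat.Prime (8 * k + i)
  have hmono : StrictMono (Nat.nth Nat.Prime) := Nat.nth_strictMono Nat.infinite_setOfPred_prime
  have hprime : ∀ i, (a i).Prime := fun i => Nat.prime_nth_prime _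
  have hge : ∀ i, 8 * k ≤ a i := fun i => by
    have := hmono.id_le (8 * k + i)
    simp only [id] at this
    show 8 * k ≤ Nat.nth Nat.Prime (8 * k + i)
    omega
  have : ∀ i, NeZero (a i) := fun i => ⟨(hprime i).ne_zero⟩
  have hcop : Pairwise (Function.onFun Nat.Coprime a) := by
    intro i j hij
    show Nat.Coprime (a i) (a j)
    rw [Nat.coprime_primes (hprime i) (hprime j)]
    intro h
    have h2 := hmono.injective h
    apply hij
    ext
    omega
  have hN0 : (∏ i, a i) ≠ 0 := Finset.prod_ne_zero_iff.2 fun i _ => NeZero.ne (a i)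
  have hNZ : NeZero (∏ i, a i) := ⟨hN0⟩
  let i0 : Fin k := ⟨0, hkpos⟩
  have hNge : 8 * k ≤ ∏ i, a i :=
    (hge i0).trans (Nat.le_of_dvd (Nat.pos_of_ne_zero hN0) (Finset.dvd_prod_of_mem a (Finset.mem_univ i0)))
  have hkM : M ≤ k := by
    have h1 : M < 4 ^ M := Nat.lt_pow_self (by norm_num)
    omega
  set ε : ℝ := 1 / (3 * M) with hε
  have hε0 : 0 < ε := by positivity
  have hε1 : ε ≤ 1 / 3 := by
    rw [hε]
    apply div_le_div_of_nonneg_left (by norm_num) (by norm_num)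
    linarith
  set μ := mu a hcop ε with hμ
  -- total variation bounds
  set D : ℕ → ℝ := fun t => (1 / 2) * ∑ z, |g a t z - 1 / ((∏ i, a i : ℕ) : ℝ)| with hD
  have htv : ∀ t, tv μ t = (1 - ε) ^ t * D t := fun t => tv_mu a hcop ε (by linarith) t
  have hDup : ∀ t, D t ≤ 1 := fun t => g_tv_upper a t
  have hDlow : ∀ t ≤ 2 * M, 13 / 16 ≤ D t := by
    intro t ht
    refine le_trans ?_ (g_tv_lower a t)
    have h1 : (7 : ℝ) / 8 ≤ ∏ i, (1 - 1 / (a i : ℝ)) := by
      have h2 : ∀ i : Fin k, (1 : ℝ) - 1 / (8 * k) ≤ 1 - 1 / (a i : ℝ) := by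
        intro i
        have h3 : (8 * k : ℝ) ≤ a i := by exact_mod_cast hge i
        have h4 : 1 / (a i : ℝ) ≤ 1 / (8 * k) := one_div_le_one_div_of_le (by positivity) h3
        linarith
      have h5 : (0 : ℝ) ≤ 1 - 1 / (8 * k) := by
        have : 1 / (8 * (k : ℝ)) ≤ 1 := by
          rw [div_le_one (by positivity)]
          have : (1 : ℝ) ≤ k := by exact_mod_cast hkpos
          linarith
        linarith
      have h6 : ∏ _i : Fin k, ((1 : ℝ) - 1 / (8 * k)) ≤ ∏ i, (1 - 1 / (a i : ℝ)) :=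
        Finset.prod_le_prod (fun _ _ => h5) fun i _ => h2 i
      refine le_trans ?_ h6
      rw [Finset.prod_const, Finset.card_univ, Fintype.card_fin]
      have h7 := one_add_mul_le_pow (a := -(1 / (8 * (k : ℝ)))) (by linarith) k
      have h8 : (1 : ℝ) + k * -(1 / (8 * (k : ℝ))) = 7 / 8 := by
        field_simp
        norm_num
      rw [h8] at h7
      calc (7 : ℝ) / 8 ≤ _ := h7
        _ = _ := by ring
    have h2 : ((1 : ℝ) - (1 / 2) ^ t) ^ k ≤ 1 / 16 := by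
      have h3 : ((1 : ℝ) / 4) ^ M ≤ (1 / 2) ^ t := by
        have : ((1 : ℝ) / 4) ^ M = (1 / 2) ^ (2 * M) := by
          rw [pow_mul]; norm_num
        rw [this]
        exact pow_le_pow_of_le_one (by norm_num) (by norm_num) ht
      have h4 : (0 : ℝ) ≤ 1 - (1 / 2) ^ t := by
        have : ((1 : ℝ) / 2) ^ t ≤ 1 := pow_le_one₀ (by norm_num) (by norm_num)
        linarith
      have h5 : (1 : ℝ) - (1 / 2) ^ t ≤ Real.exp (-(1 / 4) ^ M) := by
        have := Real.add_one_le_exp (-((1 : ℝ) / 4) ^ M)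
        linarith
      have h6 : ((1 : ℝ) - (1 / 2) ^ t) ^ k ≤ Real.exp (-(1 / 4) ^ M) ^ k :=
        pow_le_pow_left₀ h4 h5 k
      rw [← Real.exp_nat_mul] at h6
      have h7 : (k : ℝ) * -(1 / 4) ^ M = -4 := by
        rw [hk]
        push_cast
        have : (4 : ℝ) ^ M * (1 / 4) ^ M = 1 := by
          rw [← mul_pow]
          norm_num
        nlinarith
      rw [h7] at h6
      have h8 : Real.exp (-4) ≤ 1 / 16 := by
        have h9 : (2 : ℝ) ≤ Real.exp 1 := by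
          have := Real.add_one_le_exp (1 : ℝ)
          linarith
        have h10 : Real.exp 4 = Real.exp 1 ^ 4 := by
          rw [← Real.exp_nat_mul]
          norm_num
        have h11 : (16 : ℝ) ≤ Real.exp 4 := by
          rw [h10]
          calc (16 : ℝ) = 2 ^ 4 := by norm_num
            _ ≤ _ := pow_le_pow_left₀ (by norm_num) h9 4
        rw [Real.exp_neg, one_div]
        exact inv_anti₀ (by norm_num) h11
      linarith
    calc (13 : ℝ) / 16 ≤ 7 / 8 * (1 - 1 / 16) := by norm_num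
      _ ≤ _ := by
        apply mul_le_mul h1 (by linarith) (by norm_num)
        linarith
  have hpow_low : ∀ t : ℕ, 1 - t * ε ≤ (1 - ε) ^ t := by
    intro t
    have := one_add_mul_le_pow (a := -ε) (by linarith) t
    calc 1 - t * ε = 1 + t * -ε := by ring
      _ ≤ _ := this
      _ = _ := by ring
  have hpow_up : (1 - ε) ^ M ≤ 3 / 4 := by
    have h1 : 1 - ε ≤ Real.exp (-ε) := by
      have := Real.add_one_le_exp (-ε)
      linarith
    have h2 : (1 - ε) ^ M ≤ Real.exp (-ε) ^ M := pow_le_pow_left₀ (by linarith) h1 M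
    rw [← Real.exp_nat_mul] at h2
    have h3 : (M : ℝ) * -ε = -(1 / 3) := by
      rw [hε]
      field_simp
    rw [h3, Real.exp_neg] at h2
    have h4 : (4 : ℝ) / 3 ≤ Real.exp (1 / 3) := by
      have := Real.add_one_le_exp (1 / 3 : ℝ)
      linarith
    have h5 : (Real.exp (1 / 3))⁻¹ ≤ (4 / 3 : ℝ)⁻¹ := inv_anti₀ (by norm_num) h4
    calc (1 - ε) ^ M ≤ _ := h2
      _ ≤ _ := h5
      _ = 3 / 4 := by norm_num
  have hfin : ∀ δ : ℝ, 0 < δ → ∃ t, tv μ t ≤ δ := by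
    intro δ hδ
    obtain ⟨t, ht⟩ := exists_pow_lt_of_lt_one hδ (show 1 - ε < 1 by linarith)
    refine ⟨t, ?_⟩
    rw [htv]
    have h1 : 0 ≤ (1 - ε) ^ t := pow_nonneg (by linarith) _
    nlinarith [hDup t]
  have hMε : (M : ℝ) * ε = 1 / 3 := by
    rw [hε]
    field_simp
  have hN2 : 2 ≤ ∏ i, a i := by omega
  have hSup : 0 ≤ (⨆ j : {j : ZMod (∏ i, a i) // j ≠ 0}, ‖eig μ j‖) ∧
      (⨆ j : {j : ZMod (∏ i, a i) // j ≠ 0}, ‖eig μ j‖) ≤ 1 / 2 := by
    have hfact : Fact (1 < ∏ i, a i) := ⟨by omega⟩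
    have : Nonempty {j : ZMod (∏ i, a i) // j ≠ 0} := ⟨⟨1, one_ne_zero⟩⟩
    constructor
    · exact Real.iSup_nonneg fun j => norm_nonneg _
    · exact ciSup_le fun j => eig_bound a hcop ε (by linarith) (by linarith) j.1 j.2
  refine ⟨∏ i, a i, hNZ, μ, by omega, by omega, ⟨?_, mu_sum a hcop ε⟩, ?_, mu_symm a hcop ε, ?_, ?_, ?_, ?_,
    ?_, ?_⟩
  · intro x
    refine le_trans ?_ (mu_nonneg a hcop ε (by linarith) x)
    positivity
  · intro H hH b
    have h1 : ∃ y, y ∉ H := by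
      by_contra hcon
      push Not at hcon
      exact hH (by ext y; simp [hcon y])
    obtain ⟨y, hy⟩ := h1
    refine ⟨y + b, ?_, by simpa using hy⟩
    have h2 := mu_nonneg a hcop ε (by linarith) (y + b)
    have h3 : 0 < ε / ((∏ i, a i : ℕ) : ℝ) := by
      have : 0 < ((∏ i, a i : ℕ) : ℝ) := by
        have := Nat.pos_of_ne_zero hN0
        exact_mod_cast this
      positivity
    exact (lt_of_lt_of_le h3 h2).ne'
  · rw [trel, one_div]
    apply inv_nonneg.2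
    linarith [hSup.1, hSup.2]
  · rw [trel, div_le_iff₀ (by linarith [hSup.2])]
    linarith [hSup.2]
  · apply tmix_gt _ _ _ (hfin _ (by norm_num))
    intro t ht
    rw [htv]
    have h1 := hpow_low t
    have h2 := hDlow t (by omega)
    have h3 : (t : ℝ) * ε ≤ 1 / 3 := by
      rw [← hMε]
      have : (t : ℝ) ≤ M := by exact_mod_cast ht
      gcongr
    nlinarith
  · apply tmix_gt _ _ _ (hfin _ (by norm_num))
    intro t ht
    rw [htv]
    have h1 := hpow_low t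
    have h2 := hDlow t (by omega)
    have h3 : (t : ℝ) * ε ≤ 2 / 3 := by
      have h4 : (t : ℝ) ≤ 2 * M := by exact_mod_cast ht
      nlinarith
    nlinarith
  · apply tmix_gt _ _ _ (hfin _ (by norm_num))
    intro t ht
    have ht0 : t = 0 := by omega
    subst ht0
    rw [htv]
    have h2 := hDlow 0 (by omega)
    rw [pow_zero, one_mul]
    linarith
  · apply tmix_le
    rw [htv]
    have h1 := hDup M
    have h2 : 0 ≤ (1 - ε) ^ M := pow_nonneg (by linarith) _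
    nlinarith

/-- **The Peres conjecture fails for convolution walks on cycles.**  There are cycles `ℤ/n_k` with
`n_k → ∞` and symmetric probability measures `μ_k` on them whose convolution walks are ergodic, such
that `T_rel / T_mix(1/2) → 0` and there is no total variation cutoff. -/
theorem result : ∃ (n : ℕ → ℕ) (_ : ∀ k, NeZero (n k)) (μ : ∀ k, ZMod (n k) → ℝ),
    (∀ k, 2 ≤ n k) ∧ Tendsto n atTop atTop ∧ (∀ k, IsProb (μ k)) ∧ (∀ k, IsErgodic (μ k)) ∧
    (∀ k x, μ k (-x) = μ k x) ∧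
    Tendsto (fun k => trel (μ k) / (tmix (μ k) (1 / 2) : ℝ)) atTop (𝓝 0) ∧
    ¬ (∀ ε : ℝ, 0 < ε → ε < 1 / 2 →
      Tendsto (fun k => (tmix (μ k) ε : ℝ) / (tmix (μ k) (1 - ε) : ℝ)) atTop (𝓝 1)) := by
  have h := fun k : ℕ => exists_walk (k + 1) (by omega)
  choose n hn μ h1 h2 h3 h4 h5 h6 h7 h8 h9 h10 h11 using h
  refine ⟨n, hn, μ, h2, ?_, h3, h4, h5, ?_, ?_⟩
  · exact tendsto_atTop_mono (fun k => (Nat.le_succ k).trans (h1 k)) tendsto_id
  · have hlim : Tendsto (fun k : ℕ => 2 / ((k : ℝ) + 1)) atTop (𝓝 0) :=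
      tendsto_const_div_atTop_nhds_zero_nat 2 |>.comp (tendsto_add_atTop_nat 1) |>.congr
        (fun k => by simp)
    refine squeeze_zero (fun k => div_nonneg (h6 k) (Nat.cast_nonneg _)) (fun k => ?_) hlim
    have h12 : ((k : ℝ) + 1) ≤ tmix (μ k) (1 / 2) := by
      have := (h8 k).le
      exact_mod_cast this
    have hpos : (0 : ℝ) < (k : ℝ) + 1 := by positivity
    exact div_le_div₀ (by norm_num) (h7 k) hpos h12
  · intro hcut
    have hc := hcut (1 / 4) (by norm_num) (by norm_num)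
    have hge : ∀ k, (2 : ℝ) ≤ (tmix (μ k) (1 / 4) : ℝ) / (tmix (μ k) (1 - 1 / 4) : ℝ) := by
      intro k
      have e : (1 : ℝ) - 1 / 4 = 3 / 4 := by norm_num
      rw [e]
      have hp : (0 : ℝ) < tmix (μ k) (3 / 4) := by exact_mod_cast h10 k
      rw [le_div_iff₀ hp]
      have h13 : (tmix (μ k) (3 / 4) : ℝ) ≤ (k : ℝ) + 1 := by exact_mod_cast h11 k
      have h14 : 2 * ((k : ℝ) + 1) ≤ tmix (μ k) (1 / 4) := by exact_mod_cast (h9 k).le
      linarith
    have := ge_of_tendsto' hc hge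
    norm_num at this

end Pool.Agent.Results.MP_ee50b4_pr.ProductConditionNoCutoff
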